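import Pool.Agent.R228.ND.B

/-!
# A planar map of bounded length distortion which winds twice around the origin near `0` and is
the identity away from `0`
-/

namespace Pool.Agent.R228.BN

open Complex

/-- cut-off: `1` for `a ≤ 0`, `0` for `a ≥ 1/2` -/
noncomputable def Psi (a : ℝ) : ℝ := Real.smoothTransition (1 - 2 * a)

theorem Psi_one {a : ℝ} (ha : a ≤ 0) : Psi a = 1 :=
  Real.smoothTransition.one_of_one_le (by linarith)

theorem Psi_zero {a : ℝ} (ha : 1 / 2 ≤ a) : Psi a = 0 :=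
  Real.smoothTransition.zero_of_nonpos (by linarith)

theorem Psi_nonneg (a : ℝ) : 0 ≤ Psi a := Real.smoothTransition.nonneg _

theorem Psi_le_one (a : ℝ) : Psi a ≤ 1 := Real.smoothTransition.le_one _

theorem contDiff_Psi : ContDiff ℝ 1 Psi := by
  unfold Psi
  exact (Real.smoothTransition.contDiff).comp (by fun_prop)

theorem hasDerivAt_Psi (a : ℝ) : HasDerivAt Psi (deriv Psi a) a :=
  ((contDiff_Psi.differentiable (by norm_num)) a).hasDerivAt

theorem exists_bound : ∃ C : ℝ, 0 ≤ C ∧ ∀ a, |deriv Psi a| ≤ C := by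
  have hc : Continuous (deriv Psi) := contDiff_Psi.continuous_deriv (le_refl 1)
  obtain ⟨C, hC⟩ := (isCompact_Icc (a := (-1 : ℝ)) (b := 1)).exists_bound_of_continuousOn
    hc.continuousOn
  refine ⟨max C 0, le_max_right _ _, fun a => ?_⟩
  by_cases ha : a ∈ Set.Icc (-1 : ℝ) 1
  · exact (hC a ha).trans (le_max_left _ _)
  · have h0 : deriv Psi a = 0 := by
      rw [Set.mem_Icc, not_and_or, not_le, not_le] at ha
      rcases ha with ha | ha
      · have : Psi =ᶠ[nhds a] fun _ => 1 := by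
          filter_upwards [Iio_mem_nhds (show a < 0 by linarith)] with b hb
          exact Psi_one (le_of_lt hb)
        rw [this.deriv_eq, deriv_const]
      · have : Psi =ᶠ[nhds a] fun _ => 0 := by
          filter_upwards [Ioi_mem_nhds (show 1 / 2 < a by linarith)] with b hb
          exact Psi_zero (le_of_lt hb)
        rw [this.deriv_eq, deriv_const]
    rw [h0, abs_zero]
    exact le_max_right _ _

/-- the map in logarithmic coordinates -/
noncomputable def Lam (l : ℂ) : ℂ := ⟨l.re, (1 + Psi l.re) * l.im⟩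

/-- the winding map -/
noncomputable def w (z : ℂ) : ℂ := if z = 0 then 0 else exp (Lam (log z))

theorem w_zero : w 0 = 0 := if_pos rfl

theorem w_ne {z : ℂ} (hz : z ≠ 0) : w z = exp (Lam (log z)) := if_neg hz

theorem norm_w (z : ℂ) : ‖w z‖ = ‖z‖ := by
  by_cases hz : z = 0
  · rw [hz, w_zero]
  · rw [w_ne hz, norm_exp]
    have : (Lam (log z)).re = Real.log ‖z‖ := log_re z
    rw [this, Real.exp_log (norm_pos_iff.2 hz)]

theorem w_far {z : ℂ} (hz : 2 ≤ ‖z‖) : w z = z := by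
  have hz0 : z ≠ 0 := by
    rintro rfl
    rw [norm_zero] at hz
    linarith
  have h1 : 1 / 2 ≤ (log z).re := by
    rw [log_re]
    have h2 : Real.log 2 ≤ Real.log ‖z‖ := Real.log_le_log (by norm_num) hz
    have := Real.log_two_gt_d9
    linarith
  have h2 : Lam (log z) = log z := by
    apply Complex.ext
    · rfl
    · show (1 + Psi (log z).re) * (log z).im = (log z).im
      rw [Psi_zero h1]
      ring
  rw [w_ne hz0, h2, exp_log hz0]

theorem w_near {z : ℂ} (hz : ‖z‖ ≤ 1) : w z = z * (z / ‖z‖) := by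
  by_cases hz0 : z = 0
  · rw [hz0, w_zero]
    simp
  have h1 : (log z).re ≤ 0 := by
    rw [log_re]
    exact Real.log_nonpos (norm_nonneg _) hz
  have hn : (‖z‖ : ℂ) ≠ 0 := by
    exact_mod_cast (norm_pos_iff.2 hz0).ne'
  have h2 : Lam (log z) = log z + (log z - (Real.log ‖z‖ : ℂ)) := by
    apply Complex.ext
    · show (log z).re = _
      simp [log_re]
    · show (1 + Psi (log z).re) * (log z).im = _
      rw [Psi_one h1]
      simp
      ring
  rw [w_ne hz0, h2, exp_add, exp_sub, exp_log hz0, ← ofReal_exp,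
    Real.exp_log (norm_pos_iff.2 hz0)]

theorem w_neg_real {δ : ℝ} (h0 : 0 < δ) (h1 : δ ≤ 1) : w (-(δ : ℂ)) = w (δ : ℂ) := by
  rw [w_near, w_near]
  · simp
    ring
  · simpa [abs_of_pos h0] using h1
  · simpa [abs_of_pos h0] using h1

theorem w_lip {a b : ℂ} (ha : ‖a‖ ≤ 1) (hb : ‖b‖ ≤ 1) : ‖w a - w b‖ ≤ 3 * ‖a - b‖ := by
  rw [w_near ha, w_near hb]
  by_cases ha0 : a = 0
  · rw [ha0]
    simp only [norm_zero, ofReal_zero, div_zero, mul_zero, zero_sub, norm_neg, norm_mul, norm_div,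
      norm_real, norm_norm]
    by_cases hb0 : b = 0
    · rw [hb0]; simp
    · rw [div_self (norm_pos_iff.2 hb0).ne']
      have := norm_nonneg b
      linarith
  by_cases hb0 : b = 0
  · rw [hb0]
    simp only [norm_zero, ofReal_zero, div_zero, mul_zero, sub_zero, norm_mul, norm_div,
      norm_real, norm_norm]
    rw [div_self (norm_pos_iff.2 ha0).ne']
    have := norm_nonneg a
    linarith
  have ha1 : 0 < ‖a‖ := norm_pos_iff.2 ha0
  have hb1 : 0 < ‖b‖ := norm_pos_iff.2 hb0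
  have ha2 : (‖a‖ : ℂ) ≠ 0 := by exact_mod_cast ha1.ne'
  have hb2 : (‖b‖ : ℂ) ≠ 0 := by exact_mod_cast hb1.ne'
  have e : a * (a / ‖a‖) - b * (b / ‖b‖)
      = (a - b) * (a / ‖a‖) + (a - b) * (b / ‖b‖) +
        (b / ‖b‖) * (a / ‖a‖) * ((‖b‖ : ℂ) - ‖a‖) := by
    field_simp
    ring
  have n1 : ‖a / (‖a‖ : ℂ)‖ = 1 := by
    rw [norm_div, norm_real, norm_norm, div_self ha1.ne']
  have n2 : ‖b / (‖b‖ : ℂ)‖ = 1 := by
    rw [norm_div, norm_real, norm_norm, div_self hb1.ne']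
  have n3 : ‖(‖b‖ : ℂ) - ‖a‖‖ ≤ ‖a - b‖ := by
    rw [← ofReal_sub, norm_real, Real.norm_eq_abs, abs_sub_comm]
    exact abs_norm_sub_norm_le a b
  rw [e]
  calc _ ≤ ‖(a - b) * (a / ‖a‖)‖ + ‖(a - b) * (b / ‖b‖)‖ +
        ‖(b / ‖b‖) * (a / ‖a‖) * ((‖b‖ : ℂ) - ‖a‖)‖ := norm_add₃_le
    _ = ‖a - b‖ + ‖a - b‖ + ‖(‖b‖ : ℂ) - ‖a‖‖ := by
        rw [norm_mul, norm_mul, norm_mul, norm_mul, n1, n2]
        ring
    _ ≤ 3 * ‖a - b‖ := by linarith

/-- derivative of `Lam` -/
noncomputable def DLam (l : ℂ) : ℂ →L[ℝ] ℂ :=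
  LinearMap.toContinuousLinearMap
    { toFun := fun v => ⟨v.re, (1 + Psi l.re) * v.im + deriv Psi l.re * l.im * v.re⟩
      map_add' := fun u v => by
        apply Complex.ext
        · simp
        · simp; ring
      map_smul' := fun c v => by
        apply Complex.ext
        · simp
        · simp; ring }

theorem DLam_apply (l v : ℂ) : DLam l v
    = ⟨v.re, (1 + Psi l.re) * v.im + deriv Psi l.re * l.im * v.re⟩ := rfl

theorem hasFDerivAt_Lam (l : ℂ) : HasFDerivAt Lam (DLam l) l := by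
  have hre : HasFDerivAt (fun l : ℂ => l.re) reCLM l := reCLM.hasFDerivAt
  have him : HasFDerivAt (fun l : ℂ => l.im) imCLM l := imCLM.hasFDerivAt
  have h1 : HasFDerivAt (fun l : ℂ => (1 + Psi l.re) * l.im)
      ((1 + Psi l.re) • imCLM + l.im • (deriv Psi l.re • reCLM)) l := by
    have h2 := ((hasDerivAt_Psi l.re).comp_hasFDerivAt l hre).const_add 1
    exact h2.mul him
  have h3 := (ofRealCLM.hasFDerivAt.comp l hre).add
    ((ofRealCLM.hasFDerivAt.comp l h1).mul_const I)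
  have e : Lam = fun l => (ofRealCLM (l.re) : ℂ) + ofRealCLM ((1 + Psi l.re) * l.im) * I := by
    funext l
    apply Complex.ext
    · simp [Lam]
    · simp [Lam]
  rw [e]
  refine h3.congr_fderiv ?_
  ext v
  rw [DLam_apply]
  apply Complex.ext
  · simp
  · simp
    ring


/-- derivative of the winding map on the slit plane -/
noncomputable def Dw (z : ℂ) : ℂ →L[ℝ] ℂ :=
  (w z • (1 : ℂ →L[ℝ] ℂ)).comp ((DLam (log z)).comp (z⁻¹ • (1 : ℂ →L[ℝ] ℂ)))

theorem Dw_apply (z v : ℂ) : Dw z v = w z * DLam (log z) (z⁻¹ * v) := rfl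

theorem hasFDerivAt_w {z : ℂ} (hz : z ∈ slitPlane) : HasFDerivAt w (Dw z) z := by
  have hz0 : z ≠ 0 := slitPlane_ne_zero hz
  have h1 : HasFDerivAt log (z⁻¹ • (1 : ℂ →L[ℝ] ℂ)) z := by
    have := (hasDerivAt_log hz).complexToReal_fderiv
    exact this
  have h2 : HasFDerivAt exp (exp (Lam (log z)) • (1 : ℂ →L[ℝ] ℂ)) (Lam (log z)) :=
    (hasDerivAt_exp _).complexToReal_fderiv
  have h3 := (h2.comp z ((hasFDerivAt_Lam (log z)).comp z h1))
  have h4 : w =ᶠ[nhds z] (exp ∘ (Lam ∘ log)) := by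
    filter_upwards [isOpen_ne.mem_nhds hz0] with y hy
    exact w_ne hy
  have h5 := h3.congr_of_eventuallyEq h4
  unfold Dw
  rw [w_ne hz0]
  exact h5

theorem norm_Dw {C : ℝ} (hC : ∀ a, |deriv Psi a| ≤ C) {z : ℂ} (hz : z ∈ slitPlane) (v : ℂ) :
    ‖Dw z v‖ ≤ (3 + 4 * C) * ‖v‖ := by
  have hz0 : z ≠ 0 := slitPlane_ne_zero hz
  have hzn : 0 < ‖z‖ := norm_pos_iff.2 hz0
  have hC0 : 0 ≤ C := (abs_nonneg _).trans (hC 0)
  rw [Dw_apply, norm_mul, norm_w, DLam_apply]
  set u := z⁻¹ * v with hu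
  have hun : ‖u‖ = ‖v‖ / ‖z‖ := by
    rw [hu, norm_mul, norm_inv]
    ring
  have him : |(log z).im| ≤ 4 := by
    rw [log_im]
    have := abs_arg_le_pi z
    have := Real.pi_le_four
    linarith
  have h1 := abs_re_le_norm u
  have h2 := abs_im_le_norm u
  have h3 : |(1 + Psi (log z).re) * u.im| ≤ 2 * ‖u‖ := by
    rw [abs_mul, abs_of_nonneg (by linarith [Psi_nonneg (log z).re])]
    exact mul_le_mul (by linarith [Psi_le_one (log z).re]) h2 (abs_nonneg _) (by norm_num)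
  have h4 : |deriv Psi (log z).re * (log z).im * u.re| ≤ C * 4 * ‖u‖ := by
    rw [abs_mul, abs_mul]
    exact mul_le_mul (mul_le_mul (hC _) him (abs_nonneg _) hC0) h1 (abs_nonneg _) (by positivity)
  have h5 : ‖(⟨u.re, (1 + Psi (log z).re) * u.im + deriv Psi (log z).re * (log z).im * u.re⟩ : ℂ)‖
      ≤ (3 + 4 * C) * ‖u‖ := by
    refine (norm_le_abs_re_add_abs_im _).trans ?_
    simp only
    have h6 := abs_add_le ((1 + Psi (log z).re) * u.im)
      (deriv Psi (log z).re * (log z).im * u.re)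
    linarith
  calc _ ≤ ‖z‖ * ((3 + 4 * C) * ‖u‖) := mul_le_mul_of_nonneg_left h5 hzn.le
    _ = (3 + 4 * C) * ‖v‖ := by rw [hun]; field_simp

/-- the Jacobian of the winding map -/
theorem jac_w {z : ℂ} (hz : z ∈ slitPlane) :
    (Dw z 1).re * (Dw z I).im - (Dw z I).re * (Dw z 1).im = 1 + Psi (log z).re := by
  have hz0 : z ≠ 0 := slitPlane_ne_zero hz
  have hzn : 0 < ‖z‖ := norm_pos_iff.2 hz0
  rw [Dw_apply, Dw_apply, DLam_apply, DLam_apply]
  set c := z⁻¹ with hc
  have h1 : (c * I).re = - c.im := by simp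
  have h2 : (c * I).im = c.re := by simp
  rw [mul_one, h1, h2]
  set μ := 1 + Psi (log z).re
  set ν := deriv Psi (log z).re * (log z).im
  simp only [mul_re, mul_im]
  have h3 : normSq (w z) = normSq z := by
    rw [normSq_eq_norm_sq, normSq_eq_norm_sq, norm_w]
  have h4 : normSq z * normSq c = 1 := by
    rw [← normSq_mul, hc, mul_inv_cancel₀ hz0, normSq_one]
  rw [normSq_apply] at h3
  rw [normSq_apply c] at h4
  rw [← h3] at h4
  linear_combination μ * h4

end Pool.Agent.R228.BN
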