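import Pool.Agent.R228.BN.A

/-!
# A quasiregular map of a domain of `ℝ³` whose branch set has an image of Nagata dimension at
# least two
-/

namespace Pool.Agent.R228.BN

open Complex MeasureTheory Topology
open Pool.Agent.R228.ND

/-- `f` is quasiregular in the domain `Ω` of `ℝ^n`, in the locally Lipschitz class: `Ω` is open and
connected, `f` is locally Lipschitz in `Ω` (so continuous and in `W^{1,n}_loc`) and
`|Df|^n ≤ K J_f` almost everywhere. -/
def QRLip {n : ℕ} (f : EuclideanSpace ℝ (Fin n) → EuclideanSpace ℝ (Fin n))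
    (Ω : Set (EuclideanSpace ℝ (Fin n))) : Prop :=
  IsOpen Ω ∧ IsConnected Ω ∧ LocallyLipschitzOn Ω f ∧
  ∃ K : ℝ, 1 ≤ K ∧ ∀ᵐ x ∂(volume.restrict Ω),
    DifferentiableAt ℝ f x ∧ ‖fderiv ℝ f x‖ ^ n ≤ K * (fderiv ℝ f x).det

/-- The branch set: the points of `Ω` at which `f` is not a local homeomorphism. -/
def branchSet {n : ℕ} (f : EuclideanSpace ℝ (Fin n) → EuclideanSpace ℝ (Fin n))
    (Ω : Set (EuclideanSpace ℝ (Fin n))) : Set (EuclideanSpace ℝ (Fin n)) :=
  {x | x ∈ Ω ∧ ¬ ∃ U : Set (EuclideanSpace ℝ (Fin n)), IsOpen U ∧ x ∈ U ∧ U ⊆ Ω ∧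
    IsOpenEmbedding (U.domRestrict f)}

abbrev R3 := EuclideanSpace ℝ (Fin 3)

/-- projection to the plane -/
noncomputable def zc : R3 →L[ℝ] ℂ :=
  ofRealCLM.comp (PiLp.proj 2 (fun _ : Fin 3 => ℝ) 0) +
    I • ofRealCLM.comp (PiLp.proj 2 (fun _ : Fin 3 => ℝ) 1)

theorem zc_re (x : R3) : (zc x).re = x 0 := by simp [zc]

theorem zc_im (x : R3) : (zc x).im = x 1 := by simp [zc]

theorem zc_norm (x : R3) : ‖zc x‖ ≤ 2 * ‖x‖ := by
  refine (norm_le_abs_re_add_abs_im _).trans ?_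
  rw [zc_re, zc_im]
  have h0 := PiLp.norm_apply_le x 0
  have h1 := PiLp.norm_apply_le x 1
  rw [Real.norm_eq_abs] at h0 h1
  linarith

/-- centre -/
noncomputable def ctr (k : ℤ) : ℂ := ⟨0, 4 * k⟩

noncomputable def kk (z : ℂ) : ℤ := round (z.im / 4)

theorem kk_eq {z : ℂ} {k : ℤ} (h : |z.im - 4 * k| < 2) : kk z = k := by
  unfold kk
  rw [round_eq, Int.floor_eq_iff]
  rw [abs_lt] at h
  constructor <;> linarith

/-- the planar map -/
noncomputable def u (z : ℂ) : ℂ := ctr (kk z) + w (z - ctr (kk z))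

theorem u_half {z : ℂ} (hz : 2 < z.re) : u z = z := by
  unfold u
  rw [w_far]
  · ring
  · have h1 := abs_re_le_norm (z - ctr (kk z))
    have h2 : (z - ctr (kk z)).re = z.re := by simp [ctr]
    rw [h2] at h1
    have := le_abs_self z.re
    linarith

theorem u_near {z : ℂ} {k : ℤ} (h : |z.im - 4 * k| < 2) : u z = ctr k + w (z - ctr k) := by
  unfold u
  rw [kk_eq h]

/-- the map of `ℝ³` built from a planar map -/
noncomputable def lift (v : ℂ → ℂ) (x : R3) : R3 :=
  WithLp.toLp 2 ![(v (zc x)).re, (v (zc x)).im, x 2]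

@[simp] theorem lift_0 (v : ℂ → ℂ) (x : R3) : lift v x 0 = (v (zc x)).re := rfl
@[simp] theorem lift_1 (v : ℂ → ℂ) (x : R3) : lift v x 1 = (v (zc x)).im := rfl
@[simp] theorem lift_2 (v : ℂ → ℂ) (x : R3) : lift v x 2 = x 2 := rfl

noncomputable def F : R3 → R3 := lift u

def Half : Set ℂ := {z | 2 < z.re}
def Disc (k : ℤ) : Set ℂ := {z | ‖z - ctr k‖ < 1}
def Wedge (k : ℤ) : Set ℂ := {z | 0 < z.re ∧ z.re < 3 ∧ |z.im - 4 * k| < z.re / 3}

def Om : Set R3 := {x | zc x ∈ Half ∨ ∃ k : ℤ, zc x ∈ Disc k ∨ zc x ∈ Wedge k}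

theorem disc_im {z : ℂ} {k : ℤ} (h : z ∈ Disc k) : |z.im - 4 * k| < 2 := by
  have h1 := abs_im_le_norm (z - ctr k)
  have h2 : (z - ctr k).im = z.im - 4 * k := by simp [ctr]
  rw [h2] at h1
  have h3 : ‖z - ctr k‖ < 1 := h
  linarith

theorem wedge_im {z : ℂ} {k : ℤ} (h : z ∈ Wedge k) : |z.im - 4 * k| < 2 := by
  obtain ⟨_, h2, h3⟩ := h
  linarith

theorem isOpen_Half : IsOpen Half := isOpen_lt continuous_const continuous_re

theorem isOpen_Disc (k : ℤ) : IsOpen (Disc k) :=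
  isOpen_lt (by fun_prop) continuous_const

theorem isOpen_Wedge (k : ℤ) : IsOpen (Wedge k) := by
  have : Wedge k = {z : ℂ | 0 < z.re} ∩ ({z : ℂ | z.re < 3} ∩
      {z : ℂ | |z.im - 4 * (k : ℝ)| < z.re / 3}) := rfl
  rw [this]
  refine (isOpen_lt continuous_const continuous_re).inter
    ((isOpen_lt continuous_re continuous_const).inter (isOpen_lt ?_ ?_))
  · exact (continuous_im.sub continuous_const).abs
  · exact continuous_re.div_const _

theorem isOpen_Om : IsOpen Om := by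
  have : Om = zc ⁻¹' (Half ∪ ⋃ k : ℤ, (Disc k ∪ Wedge k)) := by
    ext x
    simp [Om]
  rw [this]
  apply IsOpen.preimage zc.continuous
  exact isOpen_Half.union (isOpen_iUnion (fun k => (isOpen_Disc k).union (isOpen_Wedge k)))

theorem convex_Half : Convex ℝ Half := by
  exact convex_halfSpace_re_gt 2

theorem convex_Disc (k : ℤ) : Convex ℝ (Disc k) := by
  have : Disc k = Metric.ball (ctr k) 1 := by
    ext z
    rw [Metric.mem_ball, dist_eq_norm]
    rfl
  rw [this]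
  exact convex_ball _ _

theorem convex_Wedge (k : ℤ) : Convex ℝ (Wedge k) := by
  rintro x ⟨hx1, hx2, hx3⟩ y ⟨hy1, hy2, hy3⟩ a b ha hb hab
  have h1 : (a • x + b • y).re = a * x.re + b * y.re := by simp
  have h2 : (a • x + b • y).im = a * x.im + b * y.im := by simp
  rw [abs_lt] at hx3 hy3
  have hpos : 0 < a ∨ 0 < b := by
    by_contra hc
    push Not at hc
    linarith
  refine ⟨?_, ?_, ?_⟩
  · rw [h1]
    rcases hpos with h | h
    · have := mul_pos h hx1
      have := mul_nonneg hb hy1.le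
      linarith
    · have := mul_pos h hy1
      have := mul_nonneg ha hx1.le
      linarith
  · rw [h1]
    have e : (3 : ℝ) = a * 3 + b * 3 := by rw [← add_mul, hab]; ring
    rw [e]
    rcases hpos with h | h
    · have := mul_lt_mul_of_pos_left hx2 h
      have := mul_le_mul_of_nonneg_left hy2.le hb
      linarith
    · have := mul_lt_mul_of_pos_left hy2 h
      have := mul_le_mul_of_nonneg_left hx2.le ha
      linarith
  · rw [h1, h2, abs_lt]
    have e : (4 * k : ℝ) = a * (4 * k) + b * (4 * k) := by rw [← add_mul, hab]; ring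
    rcases hpos with h | h
    · have i1 := mul_lt_mul_of_pos_left hx3.1 h
      have i2 := mul_lt_mul_of_pos_left hx3.2 h
      have i3 := mul_le_mul_of_nonneg_left hy3.1.le hb
      have i4 := mul_le_mul_of_nonneg_left hy3.2.le hb
      constructor <;> linarith
    · have i1 := mul_lt_mul_of_pos_left hy3.1 h
      have i2 := mul_lt_mul_of_pos_left hy3.2 h
      have i3 := mul_le_mul_of_nonneg_left hx3.1.le ha
      have i4 := mul_le_mul_of_nonneg_left hx3.2.le ha
      constructor <;> linarith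

/-- point -/
noncomputable def pt (a b c : ℝ) : R3 := WithLp.toLp 2 ![a, b, c]

theorem zc_pt (a b c : ℝ) : zc (pt a b c) = ⟨a, b⟩ := by
  apply Complex.ext
  · rw [zc_re]; rfl
  · rw [zc_im]; rfl

theorem isConnected_Om : IsConnected Om := by
  have h0 : pt 3 0 0 ∈ Om := by
    left
    rw [zc_pt]
    show (2 : ℝ) < 3
    norm_num
  refine ⟨⟨_, h0⟩, ?_⟩
  apply isPreconnected_of_forall (pt 3 0 0)
  intro y hy
  have hH : IsPreconnected (zc ⁻¹' Half) :=
    (convex_Half.linear_preimage zc.toLinearMap).isPreconnected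
  have hsubH : zc ⁻¹' Half ⊆ Om := fun x hx => Or.inl hx
  have hbase : pt 3 0 0 ∈ zc ⁻¹' Half := by
    rw [Set.mem_preimage, zc_pt]
    show (2 : ℝ) < 3
    norm_num
  rcases hy with hy | ⟨k, hy⟩
  · exact ⟨_, hsubH, hbase, hy, hH⟩
  · have hD : IsPreconnected (zc ⁻¹' Disc k) :=
      ((convex_Disc k).linear_preimage zc.toLinearMap).isPreconnected
    have hW : IsPreconnected (zc ⁻¹' Wedge k) :=
      ((convex_Wedge k).linear_preimage zc.toLinearMap).isPreconnected
    have h1 : IsPreconnected (zc ⁻¹' Half ∪ zc ⁻¹' Wedge k) := by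
      refine IsPreconnected.union (pt (5 / 2) (4 * k) 0) ?_ ?_ hH hW
      · rw [Set.mem_preimage, zc_pt]
        show (2 : ℝ) < 5 / 2
        norm_num
      · rw [Set.mem_preimage, zc_pt]
        refine ⟨by norm_num, by norm_num, ?_⟩
        simp
    have h2 : IsPreconnected ((zc ⁻¹' Half ∪ zc ⁻¹' Wedge k) ∪ zc ⁻¹' Disc k) := by
      refine IsPreconnected.union (pt (1 / 2) (4 * k) 0) ?_ ?_ h1 hD
      · right
        rw [Set.mem_preimage, zc_pt]
        refine ⟨by norm_num, by norm_num, ?_⟩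
        simp
      · rw [Set.mem_preimage, zc_pt]
        show ‖(⟨1 / 2, 4 * k⟩ : ℂ) - ctr k‖ < 1
        have : (⟨1 / 2, 4 * k⟩ : ℂ) - ctr k = ((1 / 2 : ℝ) : ℂ) := by
          apply Complex.ext
          · simp [ctr]
          · simp [ctr]
        rw [this, norm_real]
        norm_num
    refine ⟨_, ?_, Or.inl (Or.inl hbase), ?_, h2⟩
    · rintro x ((hx | hx) | hx)
      · exact hsubH hx
      · exact Or.inr ⟨k, Or.inr hx⟩
      · exact Or.inr ⟨k, Or.inl hx⟩
    · rcases hy with hy | hy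
      · exact Or.inr hy
      · exact Or.inl (Or.inr hy)

/-! ### derivatives -/

/-- `T ⊕ id` -/
noncomputable def LL (T : ℂ →L[ℝ] ℂ) : R3 →L[ℝ] R3 :=
  LinearMap.toContinuousLinearMap (Matrix.toEuclideanLin
    !![(T 1).re, (T I).re, 0; (T 1).im, (T I).im, 0; 0, 0, 1])

theorem T_zc (T : ℂ →L[ℝ] ℂ) (v : R3) : T (zc v) = (v 0 : ℂ) * T 1 + (v 1 : ℂ) * T I := by
  have h : zc v = (v 0) • (1 : ℂ) + (v 1) • I := by
    apply Complex.ext
    · rw [zc_re]; simp
    · rw [zc_im]; simp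
  rw [h, map_add, map_smul, map_smul]
  simp

theorem LL_0 (T : ℂ →L[ℝ] ℂ) (v : R3) : LL T v 0 = (T (zc v)).re := by
  rw [T_zc]
  simp [LL, Matrix.toEuclideanLin, Matrix.mulVec, dotProduct, Fin.sum_univ_three]
  ring

theorem LL_1 (T : ℂ →L[ℝ] ℂ) (v : R3) : LL T v 1 = (T (zc v)).im := by
  rw [T_zc]
  simp [LL, Matrix.toEuclideanLin, Matrix.mulVec, dotProduct, Fin.sum_univ_three]
  ring

theorem LL_2 (T : ℂ →L[ℝ] ℂ) (v : R3) : LL T v 2 = v 2 := by
  simp [LL, Matrix.toEuclideanLin, Matrix.mulVec, dotProduct, Fin.sum_univ_three]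

theorem det_LL (T : ℂ →L[ℝ] ℂ) :
    (LL T).det = (T 1).re * (T I).im - (T I).re * (T 1).im := by
  have h2 : (LL T).det = LinearMap.det (Matrix.toEuclideanLin
    !![(T 1).re, (T I).re, 0; (T 1).im, (T I).im, 0; 0, 0, 1]) := rfl
  rw [h2, Matrix.toEuclideanLin_eq_toLin_orthonormal, LinearMap.det_toLin, Matrix.det_fin_three]
  simp

theorem norm_LL {T : ℂ →L[ℝ] ℂ} {C : ℝ} (hC : 0 ≤ C) (h : ∀ v, ‖T v‖ ≤ C * ‖v‖) :
    ‖LL T‖ ≤ 3 * (2 * C + 1) := by
  apply ContinuousLinearMap.opNorm_le_bound _ (by positivity)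
  intro v
  have h0 : ‖T (zc v)‖ ≤ C * (2 * ‖v‖) := (h _).trans (mul_le_mul_of_nonneg_left (zc_norm v) hC)
  have hv := norm_nonneg v
  have := norm_le_of_coord (x := LL T v) (b := (2 * C + 1) * ‖v‖) (by positivity) (by
    intro i
    fin_cases i
    · show |LL T v 0| ≤ _
      rw [LL_0]
      have := abs_re_le_norm (T (zc v))
      linarith
    · show |LL T v 1| ≤ _
      rw [LL_1]
      have := abs_im_le_norm (T (zc v))
      linarith
    · show |LL T v 2| ≤ _
      rw [LL_2]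
      have h1 := PiLp.norm_apply_le v 2
      rw [Real.norm_eq_abs] at h1
      have h2 : 0 ≤ 2 * C * ‖v‖ := by positivity
      linarith)
  calc _ ≤ ((3 : ℕ) : ℝ) * ((2 * C + 1) * ‖v‖) := this
    _ = _ := by push_cast; ring

theorem hasFDerivAt_lift {v : ℂ → ℂ} {T : ℂ →L[ℝ] ℂ} {x : R3} (h : HasFDerivAt v T (zc x)) :
    HasFDerivAt (lift v) (LL T) x := by
  rw [← hasFDerivWithinAt_univ, hasFDerivWithinAt_euclidean]
  simp only [hasFDerivWithinAt_univ]
  have h1 : HasFDerivAt (fun y => v (zc y)) (T.comp zc) x := h.comp x zc.hasFDerivAt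
  intro i
  fin_cases i
  · refine (reCLM.hasFDerivAt.comp x h1).congr_fderiv ?_
    ext y
    exact (LL_0 T y).symm
  · refine (imCLM.hasFDerivAt.comp x h1).congr_fderiv ?_
    ext y
    exact (LL_1 T y).symm
  · refine ((PiLp.proj 2 (fun _ : Fin 3 => ℝ) 2 : R3 →L[ℝ] ℝ).hasFDerivAt).congr_fderiv ?_
    ext y
    exact (LL_2 T y).symm

end Pool.Agent.R228.BN
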