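import Pool.Agent.R228.BN.B

/-!
# A quasiregular map of a domain of `ℝ³`: final assembly
-/

namespace Pool.Agent.R228.BN

open Complex MeasureTheory Topology
open Pool.Agent.R228.ND

/-- local model near the `k`-th centre -/
noncomputable def uk (k : ℤ) (z : ℂ) : ℂ := ctr k + w (z - ctr k)

theorem F_eq_half {x : R3} (hx : zc x ∈ Half) : F =ᶠ[𝓝 x] id := by
  have h : zc ⁻¹' Half ∈ 𝓝 x := (isOpen_Half.preimage zc.continuous).mem_nhds hx
  filter_upwards [h] with y hy
  ext i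
  have h1 := u_half hy
  fin_cases i
  · show (u (zc y)).re = y 0
    rw [h1, zc_re]
  · show (u (zc y)).im = y 1
    rw [h1, zc_im]
  · rfl

theorem F_eq_near {x : R3} {k : ℤ} (hx : |(zc x).im - 4 * k| < 2) :
    F =ᶠ[𝓝 x] lift (uk k) := by
  have ho : IsOpen {y : R3 | |(zc y).im - 4 * k| < 2} :=
    isOpen_lt ((continuous_im.comp zc.continuous).sub continuous_const).abs continuous_const
  filter_upwards [ho.mem_nhds hx] with y hy
  have h1 : u (zc y) = uk k (zc y) := u_near hy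
  ext i
  fin_cases i
  · show (u (zc y)).re = (uk k (zc y)).re
    rw [h1]
  · show (u (zc y)).im = (uk k (zc y)).im
    rw [h1]
  · rfl

theorem contDiff_Lam : ContDiff ℝ 1 Lam := by
  have e : Lam = fun l => ofRealCLM (reCLM l) + ofRealCLM ((1 + Psi (reCLM l)) * imCLM l) * I := by
    funext l
    apply Complex.ext
    · simp [Lam]
    · simp [Lam]
  rw [e]
  have h1 : ContDiff ℝ 1 (fun l : ℂ => Psi (reCLM l)) := contDiff_Psi.comp reCLM.contDiff
  have h2 : ContDiff ℝ 1 (fun l : ℂ => (1 + Psi (reCLM l)) * imCLM l) :=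
    (contDiff_const.add h1).mul imCLM.contDiff
  exact (ofRealCLM.contDiff.comp reCLM.contDiff).add
    ((ofRealCLM.contDiff.comp h2).mul contDiff_const)

theorem contDiffAt_w {z : ℂ} (hz : z ∈ slitPlane) : ContDiffAt ℝ 1 w z := by
  have hz0 : z ≠ 0 := slitPlane_ne_zero hz
  have h1 : ContDiffAt ℝ 1 log z := ((contDiffAt_log hz).restrict_scalars ℝ)
  have h2 : ContDiffAt ℝ 1 (fun z => exp (Lam (log z))) z :=
    ((contDiff_exp (𝕜 := ℝ)).contDiffAt).comp z (contDiff_Lam.contDiffAt.comp z h1)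
  refine h2.congr_of_eventuallyEq ?_
  filter_upwards [isOpen_ne.mem_nhds hz0] with y hy
  exact w_ne hy

theorem contDiffAt_lift {v : ℂ → ℂ} {x : R3} (h : ContDiffAt ℝ 1 v (zc x)) :
    ContDiffAt ℝ 1 (lift v) x := by
  rw [contDiffAt_euclidean]
  have h1 : ContDiffAt ℝ 1 (fun y => v (zc y)) x := h.comp x zc.contDiff.contDiffAt
  intro i
  fin_cases i
  · exact reCLM.contDiff.contDiffAt.comp x h1
  · exact imCLM.contDiff.contDiffAt.comp x h1
  · exact (PiLp.proj 2 (fun _ : Fin 3 => ℝ) 2 : R3 →L[ℝ] ℝ).contDiff.contDiffAt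

theorem lip_congr {f g : R3 → R3} {x : R3} (hfg : f =ᶠ[𝓝 x] g)
    (h : ∃ K, ∃ t ∈ 𝓝 x, LipschitzOnWith K g t) : ∃ K, ∃ t ∈ 𝓝 x, LipschitzOnWith K f t := by
  obtain ⟨K, t, ht, hK⟩ := h
  refine ⟨K, t ∩ {y | f y = g y}, Filter.inter_mem ht hfg, ?_⟩
  intro a ha b hb
  rw [show f a = g a from ha.2, show f b = g b from hb.2]
  exact hK ha.1 hb.1

theorem wedge_slit {z : ℂ} {k : ℤ} (h : z ∈ Wedge k) : z - ctr k ∈ slitPlane := by
  rw [mem_slitPlane_iff]
  left
  simpa [ctr] using h.1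

theorem locLip : LocallyLipschitzOn Om F := by
  have key : ∀ x ∈ Om, ∃ K, ∃ t ∈ 𝓝 x, LipschitzOnWith K F t := by
    intro x hx
    rcases hx with hx | ⟨k, hx | hx⟩
    · exact lip_congr (F_eq_half hx) ⟨1, Set.univ, Filter.univ_mem, LipschitzWith.id.lipschitzOnWith⟩
    · refine lip_congr (F_eq_near (disc_im hx)) ⟨18, zc ⁻¹' Disc k,
        ((isOpen_Disc k).preimage zc.continuous).mem_nhds hx, ?_⟩
      apply LipschitzOnWith.of_dist_le_mul
      intro a ha b hb
      have h1 : ‖uk k (zc a) - uk k (zc b)‖ ≤ 6 * dist a b := by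
        unfold uk
        rw [add_sub_add_left_eq_sub]
        refine (w_lip (le_of_lt ha) (le_of_lt hb)).trans ?_
        have h2 : zc a - ctr k - (zc b - ctr k) = zc (a - b) := by
          rw [map_sub]; ring
        rw [h2, dist_eq_norm]
        have := zc_norm (a - b)
        linarith
      have := dist_le_of_coord (x := lift (uk k) a) (y := lift (uk k) b) (b := 6 * dist a b)
        (by positivity) (by
          intro i
          fin_cases i
          · show |(uk k (zc a)).re - (uk k (zc b)).re| ≤ _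
            rw [← sub_re]
            exact (abs_re_le_norm _).trans h1
          · show |(uk k (zc a)).im - (uk k (zc b)).im| ≤ _
            rw [← sub_im]
            exact (abs_im_le_norm _).trans h1
          · show |a 2 - b 2| ≤ _
            have h2 := coord_le a b 2
            have h3 : 0 ≤ dist a b := dist_nonneg
            linarith)
      calc _ ≤ ((3 : ℕ) : ℝ) * (6 * dist a b) := this
        _ = _ := by push_cast; ring
    · refine lip_congr (F_eq_near (wedge_im hx)) ?_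
      apply ContDiffAt.exists_lipschitzOnWith (𝕂 := ℝ)
      apply contDiffAt_lift
      unfold uk
      apply contDiffAt_const.add
      exact (contDiffAt_w (wedge_slit hx)).comp (zc x)
        (contDiffAt_id.sub contDiffAt_const)
  intro x hx
  obtain ⟨K, t, ht, hK⟩ := key x hx
  exact ⟨K, t, mem_nhdsWithin_of_mem_nhds ht, hK⟩

theorem hyper_null (c : ℝ) : volume {x : R3 | x 1 = c} = 0 := by
  have : {x : R3 | x 1 = c} = (AffineSubspace.mk' (pt 0 c 0)
      (LinearMap.ker (PiLp.proj 2 (fun _ : Fin 3 => ℝ) 1 : R3 →L[ℝ] ℝ).toLinearMap) :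
        Set R3) := by
    ext x
    rw [SetLike.mem_coe, AffineSubspace.mem_mk', LinearMap.mem_ker]
    show x 1 = c ↔ x 1 - c = 0
    rw [sub_eq_zero]
  rw [this]
  apply Measure.addHaar_affineSubspace
  intro h
  have h1 : pt 0 (c + 1) 0 ∈ (⊤ : AffineSubspace ℝ R3) := AffineSubspace.mem_top _ _ _
  rw [← h, AffineSubspace.mem_mk', LinearMap.mem_ker] at h1
  have h2 : (c + 1 : ℝ) - c = 0 := h1
  linarith

theorem qr : QRLip F Om := by
  obtain ⟨C, hC0, hC⟩ := exists_bound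
  set B : ℝ := 3 * (2 * (3 + 4 * C) + 1) with hB
  have hB1 : 1 ≤ B := by rw [hB]; linarith
  refine ⟨isOpen_Om, isConnected_Om, locLip, B ^ 3, one_le_pow₀ hB1, ?_⟩
  rw [ae_restrict_iff' isOpen_Om.measurableSet]
  have hnull : volume (⋃ k : ℤ, {x : R3 | x 1 = 4 * k}) = 0 :=
    measure_iUnion_null (fun k => hyper_null _)
  filter_upwards [compl_mem_ae_iff.2 hnull] with x hxN hx
  have hxN' : ∀ k : ℤ, x 1 ≠ 4 * k := by
    intro k hk
    exact hxN (Set.mem_iUnion.2 ⟨k, hk⟩)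
  by_cases hH : zc x ∈ Half
  · have h1 : HasFDerivAt F (ContinuousLinearMap.id ℝ R3) x :=
      (hasFDerivAt_id x).congr_of_eventuallyEq (F_eq_half hH)
    refine ⟨h1.differentiableAt, ?_⟩
    rw [h1.fderiv]
    have h2 : (ContinuousLinearMap.id ℝ R3).det = 1 := by
      show LinearMap.det (LinearMap.id : R3 →ₗ[ℝ] R3) = 1
      exact LinearMap.det_id
    rw [h2, mul_one]
    exact pow_le_pow_left₀ (norm_nonneg _) (ContinuousLinearMap.norm_id_le.trans hB1) 3
  · obtain ⟨k, hk⟩ : ∃ k : ℤ, |(zc x).im - 4 * k| < 2 := by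
      rcases hx with hx | ⟨k, hx | hx⟩
      · exact absurd hx hH
      · exact ⟨k, disc_im hx⟩
      · exact ⟨k, wedge_im hx⟩
    have hslit : zc x - ctr k ∈ slitPlane := by
      rw [mem_slitPlane_iff]
      right
      have : (zc x - ctr k).im = x 1 - 4 * k := by
        rw [sub_im, zc_im]; rfl
      rw [this]
      exact sub_ne_zero.2 (hxN' k)
    have h1 : HasFDerivAt (uk k) (Dw (zc x - ctr k)) (zc x) := by
      have h2 : HasFDerivAt (fun z : ℂ => z - ctr k) (ContinuousLinearMap.id ℝ ℂ) (zc x) :=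
        (hasFDerivAt_id (𝕜 := ℝ) (zc x)).sub_const _
      exact ((hasFDerivAt_w hslit).comp (zc x) h2).const_add (ctr k)
    have h3 := (hasFDerivAt_lift h1).congr_of_eventuallyEq (F_eq_near hk)
    refine ⟨h3.differentiableAt, ?_⟩
    rw [h3.fderiv, det_LL, jac_w hslit]
    have h4 := norm_LL (T := Dw (zc x - ctr k)) (C := 3 + 4 * C) (by positivity)
      (norm_Dw hC hslit)
    have h5 : 1 ≤ 1 + Psi (log (zc x - ctr k)).re := by
      linarith [Psi_nonneg (log (zc x - ctr k)).re]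
    have h6 : ‖LL (Dw (zc x - ctr k))‖ ^ 3 ≤ B ^ 3 := pow_le_pow_left₀ (norm_nonneg _) h4 3
    have h7 : 0 ≤ B ^ 3 := by positivity
    nlinarith

theorem branch (k : ℤ) (t : ℝ) : pt 0 (4 * k) t ∈ branchSet F Om := by
  have hz : zc (pt 0 (4 * k) t) = ctr k := zc_pt _ _ _
  refine ⟨Or.inr ⟨k, Or.inl ?_⟩, ?_⟩
  · rw [hz]
    show ‖ctr k - ctr k‖ < 1
    simp
  · rintro ⟨U, hU, hxU, _, hemb⟩
    obtain ⟨ε, hε, hball⟩ := Metric.isOpen_iff.1 hU _ hxU
    set δ : ℝ := min (ε / 6) 1 with hδ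
    have hδ0 : 0 < δ := lt_min (by positivity) one_pos
    have hδ1 : δ ≤ 1 := min_le_right _ _
    have hδε : δ ≤ ε / 6 := min_le_left _ _
    have hmem : ∀ s : ℝ, |s| ≤ δ → pt s (4 * k) t ∈ U := by
      intro s hs
      apply hball
      rw [Metric.mem_ball]
      have := dist_le_of_coord (x := pt s (4 * k) t) (y := pt 0 (4 * k) t) (b := δ) hδ0.le (by
        intro i
        fin_cases i
        · show |s - 0| ≤ δ
          rwa [sub_zero]
        · show |(4 * k : ℝ) - 4 * k| ≤ δ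
          simpa using hδ0.le
        · show |t - t| ≤ δ
          simpa using hδ0.le)
      have h3 : ((3 : ℕ) : ℝ) * δ ≤ ε / 2 := by
        push_cast
        linarith
      exact (this.trans h3).trans_lt (by linarith)
    have h1 := hmem δ (by rw [abs_of_pos hδ0])
    have h2 := hmem (-δ) (by rw [abs_neg, abs_of_pos hδ0])
    have heq : F (pt δ (4 * k) t) = F (pt (-δ) (4 * k) t) := by
      have e1 : zc (pt δ (4 * k) t) - ctr k = (δ : ℂ) := by
        rw [zc_pt]
        apply Complex.ext <;> simp [ctr]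
      have e2 : zc (pt (-δ) (4 * k) t) - ctr k = -(δ : ℂ) := by
        rw [zc_pt]
        apply Complex.ext <;> simp [ctr]
      have i1 : |(zc (pt δ (4 * k) t)).im - 4 * k| < 2 := by rw [zc_pt]; simp
      have i2 : |(zc (pt (-δ) (4 * k) t)).im - 4 * k| < 2 := by rw [zc_pt]; simp
      have h3 : u (zc (pt δ (4 * k) t)) = u (zc (pt (-δ) (4 * k) t)) := by
        rw [u_near i1, u_near i2, e1, e2, w_neg_real hδ0 hδ1]
      ext i
      fin_cases i
      · show (u (zc (pt δ (4 * k) t))).re = (u (zc (pt (-δ) (4 * k) t))).re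
        rw [h3]
      · show (u (zc (pt δ (4 * k) t))).im = (u (zc (pt (-δ) (4 * k) t))).im
        rw [h3]
      · rfl
    have h4 : (⟨_, h1⟩ : U) = ⟨_, h2⟩ := hemb.injective heq
    have h5 : pt δ (4 * k) t = pt (-δ) (4 * k) t := congrArg Subtype.val h4
    have h6 : (pt δ (4 * k) t) 0 = (pt (-δ) (4 * k) t) 0 := by rw [h5]
    have h7 : δ = -δ := h6
    linarith

theorem F_pt (k : ℤ) (t : ℝ) : F (pt 0 (4 * k) t) = pt 0 (4 * k) t := by
  have i1 : |(zc (pt 0 (4 * k) t)).im - 4 * k| < 2 := by rw [zc_pt]; simp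
  have e1 : zc (pt 0 (4 * k) t) = ctr k := zc_pt _ _ _
  have h3 : u (zc (pt 0 (4 * k) t)) = ctr k := by
    rw [u_near i1, e1, sub_self, w_zero, add_zero]
  ext i
  fin_cases i
  · show (u (zc (pt 0 (4 * k) t))).re = 0
    rw [h3]; rfl
  · show (u (zc (pt 0 (4 * k) t))).im = 4 * k
    rw [h3]; rfl
  · rfl

/-- pulling back covers under similarities -/
theorem pullback {M N : Type*} [PseudoMetricSpace M] [PseudoMetricSpace N] {X : Set M}
    {Y : Set N} {φ : N → M} {lam : ℝ} (hl : 0 < lam) (hφ : ∀ a b, dist (φ a) (φ b) = lam * dist a b)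
    (hY : ∀ y ∈ Y, φ y ∈ X) {d : ℕ} (h : NagataLE X d) : NagataLE Y d := by
  obtain ⟨c, hc, h⟩ := h
  refine ⟨c, hc, fun s hs => ?_⟩
  obtain ⟨𝒰, h1, h2, h3⟩ := h (lam * s) (by positivity)
  refine ⟨(fun U => φ ⁻¹' U ∩ Y) '' 𝒰, ?_, ?_, ?_⟩
  · rintro _ ⟨U, hU, rfl⟩
    refine ⟨Set.inter_subset_right, fun x hx y hy => ?_⟩
    have h4 := (h1 U hU).2 _ hx.1 _ hy.1
    rw [hφ] at h4
    have h5 : lam * dist x y ≤ lam * (c * s) := by linarith
    exact le_of_mul_le_mul_left h5 hl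
  · intro y hy
    obtain ⟨U, hU, hyU⟩ := h2 (hY y hy)
    exact ⟨_, ⟨U, hU, rfl⟩, hyU, hy⟩
  · intro B hB hd
    have h4 := h3 (φ '' B) (by rintro _ ⟨b, hb, rfl⟩; exact hY b (hB hb)) (by
      rintro _ ⟨a, ha, rfl⟩ _ ⟨b, hb, rfl⟩
      rw [hφ]
      exact mul_le_mul_of_nonneg_left (hd a ha b hb) hl.le)
    refine (Set.encard_le_encard ?_).trans ((Set.encard_image_le (fun U => φ ⁻¹' U ∩ Y) _).trans h4)
    rintro _ ⟨⟨U, hU, rfl⟩, b, ⟨hb1, hb2⟩, hb3⟩
    exact ⟨U, ⟨hU, φ b, hb1, b, hb3, rfl⟩, rfl⟩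

theorem dim_ge : ((2 : ℕ) : ℕ∞) ≤ nagataDim (F '' branchSet F Om) := by
  apply le_nagataDim (d := 1)
  intro h
  have h1 := pullback (Y := Set.range (zp : (Fin 2 → ℤ) → EuclideanSpace ℝ (Fin 2)))
    (φ := fun y => pt 0 (4 * y 0) (4 * y 1)) (lam := 4) (by norm_num) (by
      intro a b
      rw [EuclideanSpace.dist_eq, EuclideanSpace.dist_eq, Fin.sum_univ_three, Fin.sum_univ_two]
      have e0 : (pt 0 (4 * a 0) (4 * a 1)) 0 = 0 := rfl
      have e1 : (pt 0 (4 * a 0) (4 * a 1)) 1 = 4 * a 0 := rfl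
      have e2 : (pt 0 (4 * a 0) (4 * a 1)) 2 = 4 * a 1 := rfl
      have f0 : (pt 0 (4 * b 0) (4 * b 1)) 0 = 0 := rfl
      have f1 : (pt 0 (4 * b 0) (4 * b 1)) 1 = 4 * b 0 := rfl
      have f2 : (pt 0 (4 * b 0) (4 * b 1)) 2 = 4 * b 1 := rfl
      rw [e0, e1, e2, f0, f1, f2]
      simp only [Real.dist_eq, sq_abs]
      have h4 : (4 : ℝ) = √(4 ^ 2) := by rw [Real.sqrt_sq (by norm_num)]
      conv_rhs => rw [h4]
      rw [← Real.sqrt_mul (by norm_num)]
      congr 1
      ring) (by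
      rintro _ ⟨z, rfl⟩
      refine ⟨pt 0 (4 * (z 0 : ℤ)) (4 * z 1), branch _ _, F_pt _ _⟩) h
  exact not_nagata (n := 2) (d := 1) (by norm_num) (fun z => Set.mem_range_self z) h1

end Pool.Agent.R228.BN
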